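import Mathlib

set_option autoImplicit false

namespace Pool.Agent.P.MP_c12391_an

/-- The slice `S(C, f, α) = {x ∈ C : f x > sup f(C) - α}`. -/
def slice {X : Type*} [NormedAddCommGroup X] [NormedSpace ℝ X] (C : Set X) (f : StrongDual ℝ X)
    (α : ℝ) : Set X :=
  {x | x ∈ C ∧ sSup (f '' C) - α < f x}

/-- `x₀` is an almost preserved extreme point of `C`: it lies in `C`, and every relatively weakly
open subset `C ∩ U` of `C` (with `U` weakly open) that contains `x₀` contains a non-empty slice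
of `C`. -/
def IsAPEP {X : Type*} [NormedAddCommGroup X] [NormedSpace ℝ X] (C : Set X) (x₀ : X) : Prop :=
  x₀ ∈ C ∧ ∀ U : Set (WeakSpace ℝ X), IsOpen U → toWeakSpace ℝ X x₀ ∈ U →
    ∃ (f : StrongDual ℝ X) (α : ℝ), 0 < α ∧ (slice C f α).Nonempty ∧
      slice C f α ⊆ C ∩ (toWeakSpace ℝ X) ⁻¹' U

/-- The origin is an almost preserved extreme point of the closed unit ball of `X`. -/
def ZeroIsAPEP (X : Type*) [NormedAddCommGroup X] [NormedSpace ℝ X] : Prop :=
  IsAPEP (Metric.closedBall (0 : X) 1) 0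

end Pool.Agent.P.MP_c12391_an
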