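import Pool.Agent.P.MP_c12391_an.Defs

set_option autoImplicit false

open Metric Filter Topology
open scoped InnerProductSpace

namespace Pool.Agent.P.MP_c12391_an

theorem weak_eval_continuous {X : Type*} [NormedAddCommGroup X] [NormedSpace ℝ X]
    (f : StrongDual ℝ X) : Continuous fun x : WeakSpace ℝ X => f ((toWeakSpace ℝ X).symm x) :=
  WeakBilin.eval_continuous (topDualPairing ℝ X).flip f

theorem exists_finset_ker_subset {X : Type*} [NormedAddCommGroup X] [NormedSpace ℝ X]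
    (U : Set (WeakSpace ℝ X)) (hU : IsOpen U) (h0 : toWeakSpace ℝ X 0 ∈ U) :
    ∃ I : Finset (StrongDual ℝ X), ∀ x : X, (∀ f ∈ I, f x = 0) → toWeakSpace ℝ X x ∈ U := by
  obtain ⟨V, hV, rfl⟩ := isOpen_induced_iff.mp hU
  obtain ⟨I, t, ht, hsub⟩ := isOpen_pi_iff.mp hV _ h0
  refine ⟨I, fun x hx => hsub fun f hf => ?_⟩
  have h1 := (ht f hf).2
  have h2 := hx f hf
  change f x ∈ t f
  change f 0 ∈ t f at h1
  rw [map_zero] at h1
  rwa [h2]

theorem exists_unit_ge {X : Type*} [NormedAddCommGroup X] [NormedSpace ℝ X] [Nontrivial X]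
    (f : StrongDual ℝ X) (z : X) (hz : ‖z‖ ≤ 1) : ∃ v : X, ‖v‖ = 1 ∧ f z ≤ f v := by
  by_cases h : f z ≤ 0
  · obtain ⟨u, hu⟩ := exists_norm_eq X zero_le_one
    rcases le_total 0 (f u) with h1 | h1
    · exact ⟨u, hu, h.trans h1⟩
    · exact ⟨-u, by simpa using hu, by rw [map_neg]; linarith⟩
  · push Not at h
    have hz0 : z ≠ 0 := by
      rintro rfl
      simp at h
    have hpos : 0 < ‖z‖ := norm_pos_iff.mpr hz0
    refine ⟨‖z‖⁻¹ • z, by simp [norm_smul, hpos.ne'], ?_⟩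
    rw [map_smul, smul_eq_mul]
    have : 1 ≤ ‖z‖⁻¹ := (one_le_inv₀ hpos).mpr hz
    nlinarith

theorem not_apep (n : ℕ) :
    ¬ IsAPEP (closedBall (0 : EuclideanSpace ℝ (Fin (n + 1))) 1) 0 := by
  rintro ⟨-, h⟩
  let g : WeakSpace ℝ (EuclideanSpace ℝ (Fin (n + 1))) → ℝ := fun x =>
    ∑ i, (EuclideanSpace.proj (𝕜 := ℝ) i ((toWeakSpace ℝ _).symm x)) ^ 2
  have hg : Continuous g :=
    continuous_finsetSum _ fun i _ => (weak_eval_continuous (EuclideanSpace.proj i)).pow 2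
  have hgx : ∀ x : EuclideanSpace ℝ (Fin (n + 1)), g (toWeakSpace ℝ _ x) = ‖x‖ ^ 2 := by
    intro x
    rw [EuclideanSpace.real_norm_sq_eq]
    simp [g]
  obtain ⟨f, α, -, ⟨z, hz, hz2⟩, hsub⟩ := h {x | g x < 1} (isOpen_lt hg continuous_const) (by
    change g _ < 1
    rw [hgx]; simp)
  obtain ⟨v, hv, hv2⟩ := exists_unit_ge f z (by simpa using hz)
  have := (hsub (a := v) ⟨by simp [hv], hz2.trans_le hv2⟩).2
  change g _ < 1 at this
  rw [hgx, hv] at this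
  simp at this

theorem apep :
    IsAPEP (closedBall (0 : lp (fun n : ℕ => EuclideanSpace ℝ (Fin (n + 1))) 1) 1) 0 := by
  classical
  refine ⟨by simp, fun U hU h0 => ?_⟩
  obtain ⟨I, hI⟩ := exists_finset_ker_subset U hU h0
  set n := I.card with hn
  let T : EuclideanSpace ℝ (Fin (n + 1)) →ₗ[ℝ] (I → ℝ) :=
    LinearMap.pi fun f : I => ((f : StrongDual ℝ _).comp
      (lp.singleContinuousLinearMap ℝ (fun n : ℕ => EuclideanSpace ℝ (Fin (n + 1))) 1 n)).toLinearMap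
  have hker : LinearMap.ker T ≠ ⊥ := LinearMap.ker_ne_bot_of_finrank_lt (by simp [hn])
  obtain ⟨x0, hx0, hx0ne⟩ := Submodule.exists_mem_ne_zero_of_ne_bot hker
  have hpos0 : 0 < ‖x0‖ := norm_pos_iff.mpr hx0ne
  set x := ‖x0‖⁻¹ • x0 with hxdef
  have hx1 : ‖x‖ = 1 := by simp [hxdef, norm_smul, hpos0.ne']
  have hxker : T x = 0 := by
    rw [hxdef, map_smul, LinearMap.mem_ker.mp hx0, smul_zero]
  set y : lp (fun n : ℕ => EuclideanSpace ℝ (Fin (n + 1))) 1 := lp.single 1 n x with hy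
  have hyU : toWeakSpace ℝ _ y ∈ U := by
    refine hI y fun f hf => ?_
    exact congrFun hxker ⟨f, hf⟩
  have hopen : IsOpen ((toWeakSpace ℝ (lp (fun n : ℕ => EuclideanSpace ℝ (Fin (n + 1))) 1)) ⁻¹' U) :=
    hU.preimage (toWeakSpaceCLM ℝ _).continuous
  obtain ⟨δ, hδ, hball⟩ := Metric.isOpen_iff.mp hopen y hyU
  let G : StrongDual ℝ (lp (fun n : ℕ => EuclideanSpace ℝ (Fin (n + 1))) 1) :=
    (innerSL ℝ x).comp (lp.evalCLM ℝ (fun n : ℕ => EuclideanSpace ℝ (Fin (n + 1))) 1 n)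
  have hG : ∀ z, G z = ⟪x, z n⟫_ℝ := fun z => rfl
  have hyn : ‖y‖ = 1 := by rw [hy, lp.norm_single (by norm_num), hx1]
  have hGy : G y = 1 := by
    rw [hG, hy, lp.single_apply_self, real_inner_self_eq_norm_sq, hx1]; norm_num
  have hGle : ∀ z, G z ≤ ‖z n‖ := fun z => by
    rw [hG]
    calc ⟪x, z n⟫_ℝ ≤ ‖x‖ * ‖z n‖ := real_inner_le_norm _ _
      _ = ‖z n‖ := by rw [hx1, one_mul]
  have hsup : sSup (G '' closedBall 0 1) = 1 := by
    apply IsGreatest.csSup_eq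
    refine ⟨⟨y, by simp [hyn], hGy⟩, ?_⟩
    rintro _ ⟨z, hz, rfl⟩
    exact (hGle z).trans ((lp.norm_apply_le_norm one_ne_zero z n).trans (by simpa using hz))
  refine ⟨G, min (δ / 2) (δ ^ 2 / 8), by positivity, ⟨y, by simp [hyn], ?_⟩, ?_⟩
  · rw [hsup, hGy]
    have : 0 < min (δ / 2) (δ ^ 2 / 8) := by positivity
    linarith
  · rintro z ⟨hz, hz2⟩
    refine ⟨hz, hball ?_⟩
    rw [hsup] at hz2
    have hzn : ‖z‖ ≤ 1 := by simpa using hz
    have ha1 : 1 - δ / 2 < G z := lt_of_le_of_lt (by linarith [min_le_left (δ / 2) (δ ^ 2 / 8)]) hz2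
    have ha2 : 1 - δ ^ 2 / 8 < G z :=
      lt_of_le_of_lt (by linarith [min_le_right (δ / 2) (δ ^ 2 / 8)]) hz2
    have hb := lp.norm_sub_norm_compl_sub_single (p := 1) (by norm_num) z {n}
    simp only [ENNReal.toReal_one, Real.rpow_one, Finset.sum_singleton] at hb
    have hzn' : ‖z n‖ ≤ 1 := (lp.norm_apply_le_norm one_ne_zero z n).trans hzn
    have hc : ‖z n - x‖ < δ / 2 := by
      have h1 : ‖z n - x‖ ^ 2 = ‖z n‖ ^ 2 - 2 * G z + 1 := by
        rw [norm_sub_sq_real, hG, real_inner_comm, hx1]; ring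
      have h2 : ‖z n‖ ^ 2 ≤ 1 := by nlinarith [norm_nonneg (z n)]
      apply lt_of_pow_lt_pow_left₀ 2 (by positivity)
      nlinarith
    have hd : ‖lp.single (E := fun n : ℕ => EuclideanSpace ℝ (Fin (n + 1))) 1 n (z n) - y‖ =
        ‖z n - x‖ := by
      rw [hy, ← lp.single_sub, lp.norm_single (by norm_num)]
    rw [mem_ball, dist_eq_norm]
    calc ‖z - y‖ = ‖(z - lp.single 1 n (z n)) + (lp.single 1 n (z n) - y)‖ := by
          congr 1; abel
      _ ≤ ‖z - lp.single 1 n (z n)‖ + ‖lp.single 1 n (z n) - y‖ := norm_add_le _ _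
      _ < δ := by
          rw [hd]
          linarith [hGle z]

end Pool.Agent.P.MP_c12391_an
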